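import Mathlib
import Pool.Agent.Lib.MP_058a58_ag.GramFinal

open Polynomial Filter Topology NumberField Set
open scoped TensorProduct

namespace TatePole

/-- pairs of embeddings modulo the Galois group -/
def PO (K L : Type*) [Field K] [NumberField K] [Field L] [NumberField L] : Type _ :=
  MulAction.orbitRel.Quotient GQ ((K →ₐ[ℚ] QBar) × (L →ₐ[ℚ] QBar))

section
variable (K L : Type) [Field K] [NumberField K] [Field L] [NumberField L]

/-- the kernel of the homomorphism attached to a pair of embeddings -/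
noncomputable def kerP (z : (K →ₐ[ℚ] QBar) × (L →ₐ[ℚ] QBar)) : PrimeSpectrum (K ⊗[ℚ] L) :=
  ⟨RingHom.ker (Algebra.TensorProduct.lift z.1 z.2 (fun _ _ => Commute.all _ _) :
    (K ⊗[ℚ] L) →ₐ[ℚ] QBar), RingHom.ker_isPrime _⟩

lemma lift_smul (g : GQ) (z : (K →ₐ[ℚ] QBar) × (L →ₐ[ℚ] QBar)) (x : K ⊗[ℚ] L) :
    (Algebra.TensorProduct.lift (g • z).1 (g • z).2 (fun _ _ => Commute.all _ _) :
      (K ⊗[ℚ] L) →ₐ[ℚ] QBar) x =
    g ((Algebra.TensorProduct.lift z.1 z.2 (fun _ _ => Commute.all _ _) :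
      (K ⊗[ℚ] L) →ₐ[ℚ] QBar) x) := by
  have h : (Algebra.TensorProduct.lift (g • z).1 (g • z).2 (fun _ _ => Commute.all _ _) :
      (K ⊗[ℚ] L) →ₐ[ℚ] QBar) = (g : QBar →ₐ[ℚ] QBar).comp
        (Algebra.TensorProduct.lift z.1 z.2 (fun _ _ => Commute.all _ _)) := by
    apply Algebra.TensorProduct.ext
    · ext x
      simp [smul_emb_apply]
    · ext x
      simp [smul_emb_apply]
  rw [h]
  rfl

lemma kerP_smul (g : GQ) (z : (K →ₐ[ℚ] QBar) × (L →ₐ[ℚ] QBar)) : kerP K L (g • z) = kerP K L z := by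
  apply PrimeSpectrum.ext
  apply Ideal.ext
  intro x
  change (Algebra.TensorProduct.lift (g • z).1 (g • z).2 (fun _ _ => Commute.all _ _) :
      (K ⊗[ℚ] L) →ₐ[ℚ] QBar) x = 0 ↔ (Algebra.TensorProduct.lift z.1 z.2
        (fun _ _ => Commute.all _ _) : (K ⊗[ℚ] L) →ₐ[ℚ] QBar) x = 0
  rw [lift_smul, map_eq_zero_iff g g.injective]

/-- two homomorphisms of a finite dimensional algebra into `QBar` with the same kernel are
conjugate -/
lemma conj_of_ker {A : Type} [CommRing A] [Algebra ℚ A] [FiniteDimensional ℚ A]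
    (χ χ' : A →ₐ[ℚ] QBar) (h : ∀ x, χ x = 0 ↔ χ' x = 0) : ∃ g : GQ, ∀ x, g (χ x) = χ' x := by
  have hart : IsArtinianRing A := IsArtinianRing.of_finite ℚ A
  let P : PrimeSpectrum A := ⟨RingHom.ker χ, RingHom.ker_isPrime χ⟩
  let fE : Field (RF A P) := fieldRF A P (isField_RF A P)
  have hnf : NumberField (RF A P) := numberFieldRF A P (isField_RF A P)
  let φ : RF A P →+* QBar := Ideal.Quotient.lift P.asIdeal (χ : A →+* QBar) (fun a ha => ha)
  let φ' : RF A P →+* QBar := Ideal.Quotient.lift P.asIdeal (χ' : A →+* QBar)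
    (fun a ha => (h a).mp ha)
  obtain ⟨g, hg⟩ := exists_extend φ.toRatAlgHom φ'.toRatAlgHom
  exact ⟨g, fun x => hg (toRF A P x)⟩

lemma kerP_inj {z z' : (K →ₐ[ℚ] QBar) × (L →ₐ[ℚ] QBar)} (h : kerP K L z = kerP K L z') :
    ∃ g : GQ, g • z = z' := by
  have h1 : ∀ x, (Algebra.TensorProduct.lift z.1 z.2 (fun _ _ => Commute.all _ _) :
      (K ⊗[ℚ] L) →ₐ[ℚ] QBar) x = 0 ↔ (Algebra.TensorProduct.lift z'.1 z'.2
        (fun _ _ => Commute.all _ _) : (K ⊗[ℚ] L) →ₐ[ℚ] QBar) x = 0 := by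
    intro x
    have h2 : x ∈ (kerP K L z).asIdeal ↔ x ∈ (kerP K L z').asIdeal := by rw [h]
    exact h2
  obtain ⟨g, hg⟩ := conj_of_ker _ _ h1
  refine ⟨g, Prod.ext ?_ ?_⟩
  · ext x
    have := hg (x ⊗ₜ[ℚ] (1 : L))
    simp only [Algebra.TensorProduct.lift_tmul, map_one, mul_one] at this
    exact this
  · ext x
    have := hg ((1 : K) ⊗ₜ[ℚ] x)
    simp only [Algebra.TensorProduct.lift_tmul, map_one, one_mul] at this
    exact this

lemma kerP_surj (P : PrimeSpectrum (K ⊗[ℚ] L)) : ∃ z, kerP K L z = P := by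
  have hart : IsArtinianRing (K ⊗[ℚ] L) := IsArtinianRing.of_finite ℚ _
  let fE : Field (RF (K ⊗[ℚ] L) P) := fieldRF _ P (isField_RF _ P)
  have hnf : NumberField (RF (K ⊗[ℚ] L) P) := numberFieldRF _ P (isField_RF _ P)
  let φ : RF (K ⊗[ℚ] L) P →ₐ[ℚ] QBar := IsAlgClosed.lift
  let χ₀ : (K ⊗[ℚ] L) →+* QBar := (φ : RF (K ⊗[ℚ] L) P →+* QBar).comp (toRF _ P)
  let χ : (K ⊗[ℚ] L) →ₐ[ℚ] QBar := χ₀.toRatAlgHom
  refine ⟨(χ.comp Algebra.TensorProduct.includeLeft, χ.comp Algebra.TensorProduct.includeRight), ?_⟩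
  have h1 : (Algebra.TensorProduct.lift (χ.comp Algebra.TensorProduct.includeLeft)
      (χ.comp Algebra.TensorProduct.includeRight) (fun _ _ => Commute.all _ _) :
      (K ⊗[ℚ] L) →ₐ[ℚ] QBar) = χ := by
    apply Algebra.TensorProduct.ext
    · ext x; simp
    · ext x; simp
  apply PrimeSpectrum.ext
  apply Ideal.ext
  intro x
  change (Algebra.TensorProduct.lift (χ.comp Algebra.TensorProduct.includeLeft)
      (χ.comp Algebra.TensorProduct.includeRight) (fun _ _ => Commute.all _ _) :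
      (K ⊗[ℚ] L) →ₐ[ℚ] QBar) x = 0 ↔ x ∈ P.asIdeal
  rw [h1]
  have h2 : χ x = φ (toRF _ P x) := rfl
  rw [h2, map_eq_zero_iff φ φ.injective]
  exact toRF_eq_zero _ P

theorem card_spec_eq_PO : Nat.card (PrimeSpectrum (K ⊗[ℚ] L)) = Nat.card (PO K L) := by
  symm
  refine Nat.card_congr (Equiv.ofBijective
    (Quotient.lift (kerP K L) ?_) ⟨?_, ?_⟩)
  · rintro a b ⟨g, hg⟩
    change g • b = a at hg
    rw [← hg, kerP_smul]
  · rintro ⟨z⟩ ⟨z'⟩ h
    obtain ⟨g, hg⟩ := kerP_inj K L (h : kerP K L z = kerP K L z')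
    symm
    exact Quotient.sound ⟨g, hg⟩
  · intro P
    obtain ⟨z, hz⟩ := kerP_surj K L P
    exact ⟨Quotient.mk _ z, hz⟩

end

end TatePole
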