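import Mathlib
import Pool.Agent.Lib.MP_058a58_ag.FD.Orb

open Polynomial Filter Topology NumberField Set
open scoped TensorProduct Pointwise

namespace TatePole

/-- an element fixing `K ⊓ E`, with `E` finite normal, is a product of one fixing `E` and one
fixing `K` -/
lemma exists_mul_of_inf {K E : IntermediateField ℚ QBar} [FiniteDimensional ℚ E] [Normal ℚ E]
    {g : GQ} (hg : g ∈ (K ⊓ E).fixingSubgroup) :
    ∃ n ∈ E.fixingSubgroup, ∃ k ∈ K.fixingSubgroup, g = n * k := by
  have hgal : IsGalois ℚ E := {}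
  have hN : E.fixingSubgroup.Normal := (InfiniteGalois.normal_iff_isGalois E).mpr hgal
  have hopenE : IsOpen (E.fixingSubgroup : Set GQ) := IntermediateField.fixingSubgroup_isOpen E
  have hopen : IsOpen ((K.fixingSubgroup ⊔ E.fixingSubgroup : Subgroup GQ) : Set GQ) :=
    Subgroup.isOpen_mono le_sup_right hopenE
  have hclosed : IsClosed ((K.fixingSubgroup ⊔ E.fixingSubgroup : Subgroup GQ) : Set GQ) :=
    Subgroup.isClosed_of_isOpen _ hopen
  let H : ClosedSubgroup GQ := ⟨K.fixingSubgroup ⊔ E.fixingSubgroup, hclosed⟩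
  have h1 : IntermediateField.fixedField (H : Subgroup GQ) = K ⊓ E := by
    apply le_antisymm
    · apply le_inf
      · rw [← InfiniteGalois.fixedField_fixingSubgroup K]
        exact IntermediateField.fixedField_antitone le_sup_left
      · rw [← InfiniteGalois.fixedField_fixingSubgroup E]
        exact IntermediateField.fixedField_antitone le_sup_right
    · rw [← InfiniteGalois.fixedField_fixingSubgroup (K ⊓ E)]
      apply IntermediateField.fixedField_antitone
      exact sup_le (IntermediateField.fixingSubgroup_antitone inf_le_left)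
        (IntermediateField.fixingSubgroup_antitone inf_le_right)
  have h2 : (K ⊓ E).fixingSubgroup = K.fixingSubgroup ⊔ E.fixingSubgroup := by
    rw [← h1]
    exact InfiniteGalois.fixingSubgroup_fixedField H
  rw [h2, sup_comm] at hg
  have h3 : g ∈ ((E.fixingSubgroup ⊔ K.fixingSubgroup : Subgroup GQ) : Set GQ) := hg
  rw [Subgroup.normal_mul] at h3
  obtain ⟨n, hn, k, hk, h4⟩ := Set.mem_mul.mp h3
  exact ⟨n, hn, k, hk, h4.symm⟩

section
variable {K E M : IntermediateField ℚ QBar}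

/-- restriction of embeddings -/
noncomputable def resE (h : K ≤ E) (φ : E →ₐ[ℚ] QBar) : K →ₐ[ℚ] QBar :=
  φ.comp (IntermediateField.inclusion h)

lemma resE_apply (h : K ≤ E) (φ : E →ₐ[ℚ] QBar) (x : K) : resE h φ x = φ ⟨x, h x.2⟩ := rfl

lemma resE_smul [NumberField K] [NumberField E] (h : K ≤ E) (g : GQ) (φ : E →ₐ[ℚ] QBar) :
    resE h (g • φ) = g • resE h φ := by
  ext x
  rw [smul_emb_apply, resE_apply, resE_apply, smul_emb_apply]

lemma emb_eq_smul_val [NumberField K] (φ : K →ₐ[ℚ] QBar) : ∃ g : GQ, ∀ x : K, g (x : QBar) = φ x :=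
  exists_extend K.val φ

lemma resE_surj [NumberField K] (h : K ≤ E) (φ : K →ₐ[ℚ] QBar) : ∃ ψ, resE h ψ = φ := by
  obtain ⟨g, hg⟩ := emb_eq_smul_val φ
  refine ⟨(g : QBar →ₐ[ℚ] QBar).comp E.val, ?_⟩
  ext x
  exact hg x

/-- embeddings of `K` which agree on `K ⊓ E` differ by an element fixing `E` -/
lemma exists_fix_smul [NumberField K] [FiniteDimensional ℚ E] [Normal ℚ E]
    (φ ψ : K →ₐ[ℚ] QBar) (h : resE (inf_le_left : K ⊓ E ≤ K) φ = resE inf_le_left ψ) :
    ∃ n ∈ E.fixingSubgroup, n • φ = ψ := by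
  have hgal : IsGalois ℚ E := {}
  have hN : E.fixingSubgroup.Normal := (InfiniteGalois.normal_iff_isGalois E).mpr hgal
  obtain ⟨a, ha⟩ := emb_eq_smul_val φ
  obtain ⟨b, hb⟩ := emb_eq_smul_val ψ
  have h1 : a⁻¹ * b ∈ (K ⊓ E).fixingSubgroup := by
    rw [IntermediateField.mem_fixingSubgroup_iff]
    intro x hx
    have h2 := congrArg (fun f : (K ⊓ E : IntermediateField ℚ QBar) →ₐ[ℚ] QBar => f ⟨x, hx⟩) h
    simp only [resE_apply] at h2
    have h3 : a x = b x := by
      rw [ha ⟨x, hx.1⟩, hb ⟨x, hx.1⟩]; exact h2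
    change a.symm (b x) = x
    rw [← h3, AlgEquiv.symm_apply_apply]
  obtain ⟨n, hn, k, hk, hnk⟩ := exists_mul_of_inf h1
  refine ⟨a * n * a⁻¹, hN.conj_mem n hn a, ?_⟩
  ext x
  rw [smul_emb_apply, ← ha, ← hb]
  have h4 : b = a * n * k := by rw [mul_assoc, ← hnk, mul_inv_cancel_left]
  rw [h4]
  rw [IntermediateField.mem_fixingSubgroup_iff] at hk
  change a (n (a.symm (a x))) = a (n (k x))
  rw [AlgEquiv.symm_apply_apply]
  have h5 : k x = x := hk x x.2
  rw [h5]

lemma emb_mem_of_normal [Normal ℚ E] [NumberField M] (h : M ≤ E) (ψ : M →ₐ[ℚ] QBar) (x : M) :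
    ψ x ∈ E := by
  obtain ⟨g, hg⟩ := emb_eq_smul_val ψ
  rw [← hg]
  have h1 : E.map (g : QBar →ₐ[ℚ] QBar) = E := by
    have := (IntermediateField.normal_iff_forall_map_eq').mp (inferInstance : Normal ℚ E) g
    exact this
  have h2 : g (x : QBar) ∈ E.map (g : QBar →ₐ[ℚ] QBar) := ⟨x, h x.2, rfl⟩
  rw [h1] at h2
  exact h2

/-- **pairs of embeddings only see the intersection** -/
theorem card_PO_inf [NumberField K] [FiniteDimensional ℚ E] [Normal ℚ E] [NumberField M]
    [NumberField (K ⊓ E : IntermediateField ℚ QBar)] (hM : M ≤ E) :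
    Nat.card (PO K M) = Nat.card (PO (K ⊓ E : IntermediateField ℚ QBar) M) := by
  let r : (K →ₐ[ℚ] QBar) × (M →ₐ[ℚ] QBar) →
      ((K ⊓ E : IntermediateField ℚ QBar) →ₐ[ℚ] QBar) × (M →ₐ[ℚ] QBar) :=
    fun z => (resE inf_le_left z.1, z.2)
  have hr : ∀ (g : GQ) z, r (g • z) = g • r z := fun g z =>
    Prod.ext (resE_smul inf_le_left g z.1) rfl
  refine Nat.card_congr (Equiv.ofBijective
    (Quotient.map r ?_) ⟨?_, ?_⟩)
  · rintro a b ⟨g, hg⟩
    change g • b = a at hg
    exact ⟨g, by change g • r b = r a; rw [← hg, hr]⟩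
  · rintro ⟨z⟩ ⟨z'⟩ h
    have h1 : (Quotient.mk _ (r z) : PO _ _) = Quotient.mk _ (r z') := h
    obtain ⟨g, hg⟩ := Quotient.exact h1
    change g • r z' = r z at hg
    rw [← hr] at hg
    have e1 : (r (g • z')).1 = (r z).1 := congrArg Prod.fst hg
    have e2 : (r (g • z')).2 = (r z).2 := congrArg Prod.snd hg
    change resE inf_le_left (g • z').1 = resE inf_le_left z.1 at e1
    change (g • z').2 = z.2 at e2
    obtain ⟨n, hn, hnz⟩ := exists_fix_smul _ _ e1
    apply Quotient.sound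
    refine ⟨n * g, ?_⟩
    change (n * g) • z' = z
    rw [mul_smul]
    refine Prod.ext hnz ?_
    change n • (g • z').2 = z.2
    rw [e2]
    ext x
    rw [smul_emb_apply]
    rw [IntermediateField.mem_fixingSubgroup_iff] at hn
    exact hn _ (emb_mem_of_normal hM z.2 x)
  · rintro ⟨z⟩
    obtain ⟨ψ, hψ⟩ := resE_surj (inf_le_left : K ⊓ E ≤ K) z.1
    refine ⟨Quotient.mk _ (ψ, z.2), ?_⟩
    exact congrArg (Quotient.mk _) (Prod.ext hψ rfl)

end

section
variable (K L : Type) [Field K] [NumberField K] [Field L] [NumberField L]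

lemma card_PO_symm : Nat.card (PO K L) = Nat.card (PO L K) := by
  refine Nat.card_congr (Equiv.ofBijective
    (Quotient.map Prod.swap ?_) ⟨?_, ?_⟩)
  · rintro a b ⟨g, hg⟩
    change g • b = a at hg
    exact ⟨g, by change g • b.swap = a.swap; rw [← hg]; rfl⟩
  · rintro ⟨z⟩ ⟨z'⟩ h
    have h1 : (Quotient.mk _ z.swap : PO _ _) = Quotient.mk _ z'.swap := h
    obtain ⟨g, hg⟩ := Quotient.exact h1
    change g • z'.swap = z.swap at hg
    apply Quotient.sound
    refine ⟨g, ?_⟩
    change g • z' = z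
    exact Prod.ext (congrArg Prod.snd hg) (congrArg Prod.fst hg)
  · rintro ⟨z⟩
    exact ⟨Quotient.mk _ z.swap, rfl⟩

lemma finite_PO : Finite (PO K L) := by
  have : Finite ((K →ₐ[ℚ] QBar) × (L →ₐ[ℚ] QBar)) := inferInstance
  exact Quotient.finite _

lemma card_PO_pos : 0 < Nat.card (PO K L) := by
  have := finite_PO K L
  let φ : K →ₐ[ℚ] QBar := IsAlgClosed.lift
  let ψ : L →ₐ[ℚ] QBar := IsAlgClosed.lift
  have : Nonempty (PO K L) := ⟨Quotient.mk _ (φ, ψ)⟩
  exact Nat.card_pos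

lemma card_PO_le : Nat.card (PO K L) ≤ Module.finrank ℚ L := by
  let φ : K →ₐ[ℚ] QBar := IsAlgClosed.lift
  have h1 : Function.Surjective (fun ψ : L →ₐ[ℚ] QBar => (Quotient.mk _ (φ, ψ) : PO K L)) := by
    rintro ⟨z⟩
    obtain ⟨g, hg⟩ := exists_extend z.1 φ
    refine ⟨g • z.2, ?_⟩
    apply Quotient.sound
    refine ⟨g, ?_⟩
    change g • z = (φ, g • z.2)
    refine Prod.ext ?_ rfl
    ext x
    exact hg x
  have h2 : Finite (L →ₐ[ℚ] QBar) := inferInstance
  refine (Nat.card_le_card_of_surjective _ h1).trans (le_of_eq ?_)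
  rw [Nat.card_eq_fintype_card, AlgHom.card]

end

end TatePole
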