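import Mathlib
import Pool.Agent.Lib.MP_058a58_ag.FD.Inter

open Polynomial Filter Topology NumberField Set
open scoped TensorProduct Pointwise

namespace TatePole

/-- The order of `L(s) = ∏_p P_p(p^{m-s})⁻¹` at `s = m + 1` exists and equals `k`: the function
`(s - m - 1)^(-k) L(s)` has a finite nonzero limit as real `s` tends to `m + 1` from the right. -/
def HasOrder (P : ℕ → ℂ[X]) (m : ℕ) (k : ℤ) : Prop :=
  ∃ c : ℂ, c ≠ 0 ∧ Tendsto (fun s : ℝ => ((s - (m + 1) : ℝ) : ℂ) ^ (-k) * LFun P m s)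
    (𝓝[>] ((m : ℝ) + 1)) (𝓝 c)

lemma HasOrder.log_bound {P : ℕ → ℂ[X]} {m : ℕ} {k : ℤ} (h : HasOrder P m k) :
    ∃ C : ℝ, ∀ᶠ s : ℝ in 𝓝[>] ((m : ℝ) + 1),
      |Real.log ‖LFun P m s‖ + k * Real.log (1 / (s - (m + 1)))| ≤ C := by
  obtain ⟨c, hc, ht⟩ := h
  have h1 : Tendsto (fun s : ℝ => Real.log ‖((s - (m + 1) : ℝ) : ℂ) ^ (-k) * LFun P m s‖)
      (𝓝[>] ((m : ℝ) + 1)) (𝓝 (Real.log ‖c‖)) :=
    (ht.norm).log (norm_ne_zero_iff.mpr hc)
  have h2 := h1.abs.eventually_le_const (show |Real.log ‖c‖| < |Real.log ‖c‖| + 1 by linarith)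
  have h3 := ht.eventually_ne hc
  refine ⟨|Real.log ‖c‖| + 1, ?_⟩
  filter_upwards [h2, h3, self_mem_nhdsWithin] with s hs hne hpos
  have hx : 0 < s - (m + 1) := by
    have : (m : ℝ) + 1 < s := hpos
    linarith
  have hL : LFun P m s ≠ 0 := right_ne_zero_of_mul hne
  rw [norm_mul, norm_zpow, Complex.norm_real, Real.norm_of_nonneg hx.le,
    Real.log_mul (zpow_ne_zero _ hx.ne') (norm_ne_zero_iff.mpr hL), Real.log_zpow] at hs
  rw [one_div, Real.log_inv]
  push_cast at hs
  have e : Real.log ‖LFun P m s‖ + (k : ℝ) * -Real.log (s - (m + 1)) =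
    -(k : ℝ) * Real.log (s - (m + 1)) + Real.log ‖LFun P m s‖ := by ring
  rw [e]
  exact hs

lemma tendsto_logL (m : ℕ) : Tendsto (fun s : ℝ => Real.log (1 / (s - (m + 1))))
    (𝓝[>] ((m : ℝ) + 1)) atTop := by
  have h3 : Tendsto (fun x : ℝ => x - (m + 1)) (𝓝[>] ((m : ℝ) + 1)) (𝓝[>] (0:ℝ)) := by
    refine tendsto_nhdsWithin_iff.mpr ⟨?_, ?_⟩
    · have : Tendsto (fun x : ℝ => x - (m + 1)) (𝓝 ((m : ℝ) + 1)) (𝓝 ((m : ℝ) + 1 - (m + 1))) :=
        (continuous_id.sub continuous_const).tendsto _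
      rw [sub_self] at this
      exact this.mono_left nhdsWithin_le_nhds
    · filter_upwards [self_mem_nhdsWithin] with x hx
      simp only [mem_Ioi] at hx ⊢
      linarith
  have h4 : Tendsto (fun x : ℝ => (x - (m + 1))⁻¹) (𝓝[>] ((m : ℝ) + 1)) atTop :=
    tendsto_inv_nhdsGT_zero.comp h3
  have h5 := Real.tendsto_log_atTop.comp h4
  refine h5.congr fun x => ?_
  simp only [Function.comp, one_div]

/-- the compositum of the normal closures of a finite set of fields -/
noncomputable def ET (T : Finset (IntermediateField ℚ QBar)) : IntermediateField ℚ QBar :=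
  ⨆ L : T, IntermediateField.normalClosure ℚ (L : IntermediateField ℚ QBar) QBar

lemma ET_normal (T : Finset (IntermediateField ℚ QBar)) : Normal ℚ (ET T) := by
  have h : ∀ L : T, Normal ℚ
      (IntermediateField.normalClosure ℚ (L : IntermediateField ℚ QBar) QBar) :=
    fun L => normalClosure.normal ℚ _ QBar
  exact IntermediateField.normal_iSup ℚ QBar _

lemma ET_fd {T : Finset (IntermediateField ℚ QBar)} (hT : ∀ L ∈ T, FiniteDimensional ℚ L) :
    FiniteDimensional ℚ (ET T) := by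
  have h0 : ∀ L : T, FiniteDimensional ℚ (L : IntermediateField ℚ QBar) := fun L => hT L L.2
  have h : ∀ L : T, FiniteDimensional ℚ
      (IntermediateField.normalClosure ℚ (L : IntermediateField ℚ QBar) QBar) :=
    fun L => normalClosure.is_finiteDimensional ℚ _ QBar
  exact IntermediateField.finiteDimensional_iSup_of_finite

lemma le_ET {T : Finset (IntermediateField ℚ QBar)} {L : IntermediateField ℚ QBar} (h : L ∈ T) :
    L ≤ ET T := by
  have h1 : L ≤ IntermediateField.normalClosure ℚ L QBar := by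
    have h := AlgHom.fieldRange_le_normalClosure (F := ℚ) (K := L) (L := QBar) L.val
    rwa [IntermediateField.fieldRange_val] at h
  exact h1.trans (le_iSup (fun L : T =>
    IntermediateField.normalClosure ℚ (L : IntermediateField ℚ QBar) QBar) ⟨L, h⟩)

/-- the inner product -/
noncomputable def nn (K L : IntermediateField ℚ QBar) [NumberField K] [NumberField L] : ℝ :=
  Nat.card (PrimeSpectrum (K ⊗[ℚ] L))

lemma nn_eq (K L : IntermediateField ℚ QBar) [NumberField K] [NumberField L] :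
    nn K L = Nat.card (PO K L) := by
  unfold nn
  rw [card_spec_eq_PO]

lemma nn_symm (K L : IntermediateField ℚ QBar) [NumberField K] [NumberField L] :
    nn K L = nn L K := by
  rw [nn_eq, nn_eq, card_PO_symm]

lemma nn_inf {K E M N : IntermediateField ℚ QBar} [NumberField K] [NumberField M] [NumberField N]
    [FiniteDimensional ℚ E] [Normal ℚ E] (hN : N = K ⊓ E) (hM : M ≤ E) : nn K M = nn N M := by
  subst hN
  rw [nn_eq, nn_eq, card_PO_inf hM]

lemma one_le_nn (K L : IntermediateField ℚ QBar) [NumberField K] [NumberField L] :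
    1 ≤ nn K L := by
  rw [nn_eq]
  exact_mod_cast card_PO_pos K L

lemma nn_le (K L : IntermediateField ℚ QBar) [NumberField K] [NumberField L] :
    nn K L ≤ Module.finrank ℚ L := by
  rw [nn_eq]
  exact_mod_cast card_PO_le K L

end TatePole
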