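import Mathlib
import Pool.Agent.Lib.MP_058a58_ag.FD.Main

open Polynomial Filter Topology NumberField Set
open scoped TensorProduct Pointwise

namespace TatePole

section
variable {N : ℕ} {K M E : Fin N → IntermediateField ℚ QBar} [∀ i, NumberField (K i)]
  [∀ i, NumberField (M i)] [∀ i, FiniteDimensional ℚ (E i)] [∀ i, Normal ℚ (E i)]

/-- the block of the Gram matrix -/
noncomputable def BB (K M : Fin N → IntermediateField ℚ QBar) [∀ i, NumberField (K i)]
    [∀ i, NumberField (M i)] (i j : Fin N) : ℝ :=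
  nn (K i) (K j) - nn (K i) (M j) - nn (M i) (K j) + nn (M i) (M j)

lemma BB_zero (hM : ∀ i, M i = K i ⊓ E i) (hK : ∀ i j, j < i → K j ≤ E i) {i j : Fin N}
    (hij : i ≠ j) : BB K M i j = 0 := by
  have key : ∀ i j : Fin N, j < i →
      nn (K i) (K j) = nn (M i) (K j) ∧ nn (K i) (M j) = nn (M i) (M j) := by
    intro i j h
    refine ⟨nn_inf (hM i) (hK i j h), nn_inf (hM i) ?_⟩
    rw [hM j]
    exact inf_le_left.trans (hK i j h)
  unfold BB
  rcases lt_or_gt_of_ne hij with h | h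
  · obtain ⟨h1, h2⟩ := key j i h
    rw [nn_symm (K i) (K j), nn_symm (K i) (M j), nn_symm (M i) (K j), nn_symm (M i) (M j), h1, h2]
    ring
  · obtain ⟨h1, h2⟩ := key i j h
    rw [h1, h2]
    ring

lemma BB_diag (hM : ∀ i, M i = K i ⊓ E i) {D : ℕ}
    (hD : ∀ i, Nat.card (PrimeSpectrum (K i ⊗[ℚ] K i)) ≤ D)
    (i : Fin N) : BB K M i i ≤ (D : ℝ) - 1 := by
  have h1 : nn (K i) (M i) = nn (M i) (M i) := nn_inf (hM i) (by rw [hM i]; exact inf_le_right)
  unfold BB
  rw [nn_symm (M i) (K i), h1]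
  have h3 := one_le_nn (M i) (M i)
  have h4 : nn (K i) (K i) ≤ D := by
    unfold nn
    exact_mod_cast hD i
  linarith

/-- the family of the `2 N` fields -/
noncomputable def fld (K M : Fin N → IntermediateField ℚ QBar) :
    Fin N × Bool → IntermediateField ℚ QBar
  | (i, true) => K i
  | (i, false) => M i

instance fldNF : ∀ x : Fin N × Bool, NumberField (fld K M x)
  | (i, true) => inferInstanceAs (NumberField (K i))
  | (i, false) => inferInstanceAs (NumberField (M i))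

lemma quad_le (hM : ∀ i, M i = K i ⊓ E i) (hK : ∀ i j, j < i → K j ≤ E i) {D : ℕ}
    (hD : ∀ i, Nat.card (PrimeSpectrum (K i ⊗[ℚ] K i)) ≤ D) (hD1 : 1 ≤ D) (ε : Fin N → ℝ) (hε : ∀ i, ε i ^ 2 ≤ 1) :
    ∑ x : Fin N × Bool, ∑ y : Fin N × Bool, (if x.2 then ε x.1 else -ε x.1) *
      (if y.2 then ε y.1 else -ε y.1) *
        Nat.card (PrimeSpectrum (fld K M x ⊗[ℚ] fld K M y)) ≤ N * ((D : ℝ) - 1) := by
  have h1 : ∑ x : Fin N × Bool, ∑ y : Fin N × Bool, (if x.2 then ε x.1 else -ε x.1) *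
      (if y.2 then ε y.1 else -ε y.1) *
        Nat.card (PrimeSpectrum (fld K M x ⊗[ℚ] fld K M y)) =
      ∑ i, ∑ j, ε i * ε j * BB K M i j := by
    rw [Fintype.sum_prod_type]
    refine Finset.sum_congr rfl fun i _ => ?_
    rw [Fintype.sum_bool, Fintype.sum_prod_type, Fintype.sum_prod_type, ← Finset.sum_add_distrib]
    refine Finset.sum_congr rfl fun j _ => ?_
    rw [Fintype.sum_bool, Fintype.sum_bool]
    have e : ∀ b c : Bool, (Nat.card (PrimeSpectrum
        (fld K M (i, b) ⊗[ℚ] fld K M (j, c))) : ℝ) = nn (fld K M (i, b)) (fld K M (j, c)) :=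
      fun b c => rfl
    rw [e, e, e, e]
    have e1 : nn (fld K M (i, true)) (fld K M (j, true)) = nn (K i) (K j) := rfl
    have e2 : nn (fld K M (i, true)) (fld K M (j, false)) = nn (K i) (M j) := rfl
    have e3 : nn (fld K M (i, false)) (fld K M (j, true)) = nn (M i) (K j) := rfl
    have e4 : nn (fld K M (i, false)) (fld K M (j, false)) = nn (M i) (M j) := rfl
    rw [e1, e2, e3, e4]
    unfold BB
    simp only [if_true, Bool.false_eq_true, if_false]
    ring
  rw [h1]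
  have h2 : ∀ i ∈ (Finset.univ : Finset (Fin N)), ∑ j, ε i * ε j * BB K M i j ≤ (D : ℝ) - 1 := by
    intro i _
    rw [Finset.sum_eq_single i]
    · have h3 := BB_diag hM hD i
      have h4 : ε i * ε i * BB K M i i ≤ ε i ^ 2 * ((D : ℝ) - 1) := by
        rw [← pow_two]
        exact mul_le_mul_of_nonneg_left h3 (sq_nonneg _)
      have h5 : (0:ℝ) ≤ (D : ℝ) - 1 := by
        have : (1:ℝ) ≤ D := by exact_mod_cast hD1
        linarith
      have h6 := mul_le_mul_of_nonneg_right (hε i) h5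
      linarith
    · intro j _ hj
      rw [BB_zero hM hK (Ne.symm hj), mul_zero]
    · intro h
      exact absurd (Finset.mem_univ i) h
  refine (Finset.sum_le_sum h2).trans ?_
  rw [Finset.sum_const, Finset.card_univ, Fintype.card_fin, nsmul_eq_mul]

end

section
variable {ℓ : ℕ} [Fact ℓ.Prime] {W : Type*} [AddCommGroup W] [Module ℚ_[ℓ] W]
    [FiniteDimensional ℚ_[ℓ] W] {ρ : Representation ℚ_[ℓ] GQ W} {ι : ℚ_[ℓ] →+* ℂ}

/-- a chain of bad fields is short -/
theorem chain_bound {S : Finset ℕ} {P : ℕ → ℂ[X]}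
    (hgood : ∀ p : ℕ, p.Prime → p ∉ S → IsPureLocalFactor ρ ι p (P p))
    (B : Submodule ℚ_[ℓ] W) (hB : ∀ g : GQ, ∀ w ∈ B, ρ g w ∈ B)
    (F : Finset QBar) (hF : ∀ g : GQ, (∀ x ∈ F, g x = x) → ∀ w ∈ B, ρ g w = w)
    (hrat : ∀ g : GQ, ∃ r : ℚ, LinearMap.trace ℚ_[ℓ] B ((ρ g).restrict (hB g)) = (r : ℚ_[ℓ]))
    (S' : IntermediateField ℚ QBar → Finset ℕ) (P' : IntermediateField ℚ QBar → ℕ → ℂ[X])
    (hgood' : ∀ (K : IntermediateField ℚ QBar) [NumberField K], ∀ p : ℕ, p.Prime → p ∉ S' K →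
      IsPureLocalFactor (indRep ρ K) ι p (P' K p))
    (hbad' : ∀ (K : IntermediateField ℚ QBar) [NumberField K], ∀ p ∈ S' K, p.Prime →
      (P' K p).eval ((p : ℂ)⁻¹) ≠ 0) (m : ℕ)
    {N : ℕ} {K M E : Fin N → IntermediateField ℚ QBar} [∀ i, NumberField (K i)]
    [∀ i, NumberField (M i)] [∀ i, FiniteDimensional ℚ (E i)] [∀ i, Normal ℚ (E i)]
    (hM : ∀ i, M i = K i ⊓ E i) (hK : ∀ i j, j < i → K j ≤ E i) {D : ℕ}
    (hD : ∀ i, Nat.card (PrimeSpectrum (K i ⊗[ℚ] K i)) ≤ D)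
    (a b : Fin N → ℤ) (ha : ∀ i, HasOrder (P' (K i)) m (a i))
    (hb : ∀ i, HasOrder (P' (M i)) m (b i))
    (hne : ∀ i, a i + cycleRank ρ B (K i) ≠ b i + cycleRank ρ B (M i)) :
    N ≤ (Module.finrank ℚ_[ℓ] W - Module.finrank ℚ_[ℓ] B) ^ 2 * (D - 1) := by
  classical
  rcases Nat.eq_zero_or_pos N with rfl | hN
  · exact Nat.zero_le _
  have hD1 : 1 ≤ D := by
    have h1 := hD ⟨0, hN⟩
    have h2 := one_le_nn (K ⟨0, hN⟩) (K ⟨0, hN⟩)
    unfold nn at h2
    have h3 : 1 ≤ Nat.card (PrimeSpectrum (K ⟨0, hN⟩ ⊗[ℚ] K ⟨0, hN⟩)) := by exact_mod_cast h2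
    omega
  set e : Fin N → ℤ := fun i => (a i + cycleRank ρ B (K i)) - (b i + cycleRank ρ B (M i)) with he
  have he0 : ∀ i, e i ≠ 0 := fun i => sub_ne_zero.mpr (hne i)
  set ε : Fin N → ℝ := fun i => ((e i).sign : ℝ) with hε
  have hε2 : ∀ i, ε i ^ 2 ≤ 1 := by
    intro i
    rcases lt_or_gt_of_ne (he0 i) with h | h
    · simp [hε, Int.sign_eq_neg_one_of_neg h]
    · simp [hε, Int.sign_eq_one_of_pos h]
  have hεe : ∀ i, 1 ≤ ε i * (e i : ℝ) := by
    intro i
    have h1 : ε i * (e i : ℝ) = ((|e i| : ℤ) : ℝ) := by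
      have := Int.sign_mul_self_eq_abs (e i)
      rw [← this]
      push_cast
      rfl
    rw [h1]
    exact_mod_cast Int.one_le_abs (he0 i)
  obtain ⟨C, hC⟩ := gram_bound hgood B hB F hF hrat (fun x : Fin N × Bool => fld K M x)
    (fun x => S' (fld K M x)) (fun x => P' (fld K M x)) (fun x => hgood' (fld K M x))
    (fun x => hbad' (fld K M x)) m
  have hCa := fun i => (ha i).log_bound
  have hCb := fun i => (hb i).log_bound
  choose Ca hCa using hCa
  choose Cb hCb using hCb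
  set Q : ℝ := ∑ x : Fin N × Bool, ∑ y : Fin N × Bool, (if x.2 then ε x.1 else -ε x.1) *
      (if y.2 then ε y.1 else -ε y.1) *
        Nat.card (PrimeSpectrum (fld K M x ⊗[ℚ] fld K M y)) with hQ
  have hQle : Q ≤ N * ((D : ℝ) - 1) := quad_le hM hK hD hD1 ε hε2
  set v : ℝ := (Module.finrank ℚ_[ℓ] W : ℝ) - Module.finrank ℚ_[ℓ] B with hv
  have hv0 : 0 ≤ v := by
    rw [hv, sub_nonneg]
    exact_mod_cast Submodule.finrank_le B
  have hall : ∀ᶠ s : ℝ in 𝓝[>] ((m : ℝ) + 1), ∀ i,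
      |Real.log ‖LFun (P' (K i)) m s‖ + a i * Real.log (1 / (s - (m + 1)))| ≤ Ca i ∧
      |Real.log ‖LFun (P' (M i)) m s‖ + b i * Real.log (1 / (s - (m + 1)))| ≤ Cb i :=
    Filter.eventually_all.mpr fun i => (hCa i).and (hCb i)
  set CC : ℝ := C * ∑ x : Fin N × Bool, |(if x.2 then ε x.1 else -ε x.1)| +
    ∑ i, (Ca i + Cb i) with hCC
  -- the main inequality
  have hmain : ∀ᶠ s : ℝ in 𝓝[>] ((m : ℝ) + 1),
      ((N : ℝ) - v * Real.sqrt Q) * Real.log (1 / (s - (m + 1))) ≤ CC := by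
    filter_upwards [hC, hall, (tendsto_logL m).eventually_ge_atTop 0] with s hs hab hpos
    have h1 := hs (fun x => if x.2 then ε x.1 else -ε x.1)
    set Ls := Real.log (1 / (s - (m + 1))) with hLs
    rw [Fintype.sum_prod_type] at h1
    have h2 : ∑ i : Fin N, ∑ c : Bool, (if c then ε i else -ε i) *
        (Real.log ‖LFun (P' (fld K M (i, c))) m s‖ - (cycleRank ρ B (fld K M (i, c)) : ℝ) * Ls) =
        ∑ i : Fin N, (-(ε i * (e i : ℝ)) * Ls +
          ε i * ((Real.log ‖LFun (P' (K i)) m s‖ + a i * Ls) -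
            (Real.log ‖LFun (P' (M i)) m s‖ + b i * Ls))) := by
      refine Finset.sum_congr rfl fun i _ => ?_
      rw [Fintype.sum_bool]
      have e1 : (Real.log ‖LFun (P' (fld K M (i, true))) m s‖ -
        (cycleRank ρ B (fld K M (i, true)) : ℝ) * Ls) =
          Real.log ‖LFun (P' (K i)) m s‖ - (cycleRank ρ B (K i) : ℝ) * Ls := rfl
      have e2 : (Real.log ‖LFun (P' (fld K M (i, false))) m s‖ -
        (cycleRank ρ B (fld K M (i, false)) : ℝ) * Ls) =
          Real.log ‖LFun (P' (M i)) m s‖ - (cycleRank ρ B (M i) : ℝ) * Ls := rfl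
      rw [e1, e2]
      simp only [if_true, Bool.false_eq_true, if_false, he]
      push_cast
      ring
    have h3 : ∀ i, ε i * ((Real.log ‖LFun (P' (K i)) m s‖ + a i * Ls) -
            (Real.log ‖LFun (P' (M i)) m s‖ + b i * Ls)) ≤ Ca i + Cb i := by
      intro i
      have h4 : |ε i| ≤ 1 := by
        rw [← sq_le_one_iff_abs_le_one]
        exact hε2 i
      refine (le_abs_self _).trans ?_
      rw [abs_mul]
      have h5 := (abs_sub _ _).trans (add_le_add (hab i).1 (hab i).2)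
      calc _ ≤ 1 * (Ca i + Cb i) := by
            refine mul_le_mul h4 h5 (abs_nonneg _) zero_le_one
        _ = _ := one_mul _
    have h4 : (N : ℝ) * Ls - ∑ i, (Ca i + Cb i) ≤ -∑ i : Fin N, (-(ε i * (e i : ℝ)) * Ls +
          ε i * ((Real.log ‖LFun (P' (K i)) m s‖ + a i * Ls) -
            (Real.log ‖LFun (P' (M i)) m s‖ + b i * Ls))) := by
      rw [← Finset.sum_neg_distrib]
      have h5 : (N : ℝ) * Ls - ∑ i, (Ca i + Cb i) = ∑ i : Fin N, (Ls - (Ca i + Cb i)) := by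
        rw [Finset.sum_sub_distrib, Finset.sum_const, Finset.card_univ, Fintype.card_fin,
          nsmul_eq_mul]
      rw [h5]
      refine Finset.sum_le_sum fun i _ => ?_
      have h6 := mul_le_mul_of_nonneg_right (hεe i) hpos
      have h7 := h3 i
      linarith
    have h8 : -∑ i : Fin N, (-(ε i * (e i : ℝ)) * Ls +
          ε i * ((Real.log ‖LFun (P' (K i)) m s‖ + a i * Ls) -
            (Real.log ‖LFun (P' (M i)) m s‖ + b i * Ls))) ≤
        v * Real.sqrt Q * Ls + C * ∑ x : Fin N × Bool, |(if x.2 then ε x.1 else -ε x.1)| := by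
      rw [← h2]
      exact (neg_le_abs _).trans h1
    rw [hCC]
    linarith
  -- hence `N ≤ v √Q`
  have hle : (N : ℝ) ≤ v * Real.sqrt Q := by
    by_contra hcon
    push Not at hcon
    have h1 : Tendsto (fun s : ℝ => ((N : ℝ) - v * Real.sqrt Q) *
        Real.log (1 / (s - (m + 1)))) (𝓝[>] ((m : ℝ) + 1)) atTop :=
      Tendsto.const_mul_atTop (by linarith) (tendsto_logL m)
    obtain ⟨s, hs1, hs2⟩ := ((h1.eventually_gt_atTop CC).and hmain).exists
    linarith
  have hNpos : (0:ℝ) < N := by exact_mod_cast hN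
  have h1 : (N : ℝ) ^ 2 ≤ v ^ 2 * (N * ((D : ℝ) - 1)) := by
    have hQ0 : 0 ≤ (N : ℝ) * ((D : ℝ) - 1) := by
      have : (1:ℝ) ≤ D := by exact_mod_cast hD1
      exact mul_nonneg hNpos.le (by linarith)
    have h2 : (N : ℝ) ≤ v * Real.sqrt (N * ((D : ℝ) - 1)) :=
      hle.trans (mul_le_mul_of_nonneg_left (Real.sqrt_le_sqrt hQle) hv0)
    calc (N : ℝ) ^ 2 ≤ (v * Real.sqrt (N * ((D : ℝ) - 1))) ^ 2 :=
          pow_le_pow_left₀ hNpos.le h2 2
      _ = v ^ 2 * (N * ((D : ℝ) - 1)) := by rw [mul_pow, Real.sq_sqrt hQ0]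
  have h2 : (N : ℝ) ≤ v ^ 2 * ((D : ℝ) - 1) := by
    have h3 : (N : ℝ) * N ≤ N * (v ^ 2 * ((D : ℝ) - 1)) := by nlinarith
    exact le_of_mul_le_mul_left h3 hNpos
  have h3 : v = ((Module.finrank ℚ_[ℓ] W - Module.finrank ℚ_[ℓ] B : ℕ) : ℝ) := by
    rw [hv, Nat.cast_sub (Submodule.finrank_le B)]
  have h4 : (D : ℝ) - 1 = ((D - 1 : ℕ) : ℝ) := by
    rw [Nat.cast_sub hD1, Nat.cast_one]
  rw [h3, h4] at h2
  exact_mod_cast h2

/-- **Finite determinacy.** -/
theorem finite_determinacy {S : Finset ℕ} {P : ℕ → ℂ[X]}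
    (hgood : ∀ p : ℕ, p.Prime → p ∉ S → IsPureLocalFactor ρ ι p (P p))
    (B : Submodule ℚ_[ℓ] W) (hB : ∀ g : GQ, ∀ w ∈ B, ρ g w ∈ B)
    (F : Finset QBar) (hF : ∀ g : GQ, (∀ x ∈ F, g x = x) → ∀ w ∈ B, ρ g w = w)
    (hrat : ∀ g : GQ, ∃ r : ℚ, LinearMap.trace ℚ_[ℓ] B ((ρ g).restrict (hB g)) = (r : ℚ_[ℓ]))
    (S' : IntermediateField ℚ QBar → Finset ℕ) (P' : IntermediateField ℚ QBar → ℕ → ℂ[X])
    (hgood' : ∀ (K : IntermediateField ℚ QBar) [NumberField K], ∀ p : ℕ, p.Prime → p ∉ S' K →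
      IsPureLocalFactor (indRep ρ K) ι p (P' K p))
    (hbad' : ∀ (K : IntermediateField ℚ QBar) [NumberField K], ∀ p ∈ S' K, p.Prime →
      (P' K p).eval ((p : ℂ)⁻¹) ≠ 0) (m D : ℕ) :
    ∃ T : Finset (IntermediateField ℚ QBar),
      T.card ≤ (Module.finrank ℚ_[ℓ] W - Module.finrank ℚ_[ℓ] B) ^ 2 * (D - 1) ∧
      (∀ L ∈ T, NumberField L ∧ Nat.card (PrimeSpectrum (L ⊗[ℚ] L)) ≤ D) ∧
      ∀ (K M : IntermediateField ℚ QBar) [NumberField K] [NumberField M],
        Nat.card (PrimeSpectrum (K ⊗[ℚ] K)) ≤ D → M = K ⊓ ET T →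
        ∀ a b : ℤ, HasOrder (P' K) m a → HasOrder (P' M) m b →
          a + cycleRank ρ B K = b + cycleRank ρ B M := by
  classical
  by_contra hcon
  push Not at hcon
  set R : ℕ := (Module.finrank ℚ_[ℓ] W - Module.finrank ℚ_[ℓ] B) ^ 2 * (D - 1) with hR
  -- the greedy chain
  have hstep : ∀ T : Finset (IntermediateField ℚ QBar), T.card ≤ R →
      (∀ L ∈ T, NumberField L ∧ Nat.card (PrimeSpectrum (L ⊗[ℚ] L)) ≤ D) →
      ∃ (K M : IntermediateField ℚ QBar) (_ : NumberField K) (_ : NumberField M) (a b : ℤ),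
        Nat.card (PrimeSpectrum (K ⊗[ℚ] K)) ≤ D ∧ M = K ⊓ ET T ∧ HasOrder (P' K) m a ∧ HasOrder (P' M) m b ∧
          a + cycleRank ρ B K ≠ b + cycleRank ρ B M := by
    intro T h1 h2
    obtain ⟨K, M, iK, iM, h3, h4, a, b, h5, h6, h7⟩ := hcon T h1 h2
    exact ⟨K, M, iK, iM, a, b, h3, h4, h5, h6, h7⟩
  have hchain : ∀ N ≤ R + 1, ∃ (K M : ℕ → IntermediateField ℚ QBar) (a b : ℕ → ℤ),
      ∀ i < N, ∃ (_ : NumberField (K i)) (_ : NumberField (M i)),
        Nat.card (PrimeSpectrum (K i ⊗[ℚ] K i)) ≤ D ∧ M i = K i ⊓ ET ((Finset.range i).image K) ∧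
        HasOrder (P' (K i)) m (a i) ∧ HasOrder (P' (M i)) m (b i) ∧
          a i + cycleRank ρ B (K i) ≠ b i + cycleRank ρ B (M i) := by
    intro N
    induction N with
    | zero => exact fun _ => ⟨fun _ => ⊥, fun _ => ⊥, 0, 0, fun i hi => absurd hi (Nat.not_lt_zero i)⟩
    | succ N ih =>
      intro hN
      obtain ⟨K, M, a, b, h⟩ := ih (by omega)
      obtain ⟨K', M', iK, iM, a', b', h1, h2, h3, h4, h5⟩ := hstep ((Finset.range N).image K)
        (Finset.card_image_le.trans (by rw [Finset.card_range]; omega)) (by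
          intro L hL
          obtain ⟨i, hi, rfl⟩ := Finset.mem_image.mp hL
          obtain ⟨iKi, -, h6, -⟩ := h i (Finset.mem_range.mp hi)
          exact ⟨iKi, h6⟩)
      have himg : ∀ i ≤ N, (Finset.range i).image (Function.update K N K') =
          (Finset.range i).image K := by
        intro i hi
        apply Finset.image_congr
        intro j hj
        have hj' : j < i := by simpa using hj
        have : j ≠ N := by omega
        simp [Function.update_of_ne this]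
      refine ⟨Function.update K N K', Function.update M N M', Function.update a N a',
        Function.update b N b', fun i hi => ?_⟩
      rw [himg i (by omega)]
      rcases Nat.lt_succ_iff_lt_or_eq.mp hi with h6 | rfl
      · have h7 : i ≠ N := h6.ne
        rw [Function.update_of_ne h7, Function.update_of_ne h7, Function.update_of_ne h7,
          Function.update_of_ne h7]
        exact h i h6
      · rw [Function.update_self, Function.update_self, Function.update_self, Function.update_self]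
        exact ⟨iK, iM, h1, h2, h3, h4, h5⟩
  obtain ⟨K, M, a, b, h⟩ := hchain (R + 1) le_rfl
  have iK : ∀ i : Fin (R + 1), NumberField (K i) := fun i => (h i i.2).1
  have iM : ∀ i : Fin (R + 1), NumberField (M i) := fun i => (h i i.2).2.1
  have hT : ∀ i : Fin (R + 1), ∀ L ∈ (Finset.range (i : ℕ)).image K, FiniteDimensional ℚ L := by
    intro i L hL
    obtain ⟨j, hj, rfl⟩ := Finset.mem_image.mp hL
    have hj' := Finset.mem_range.mp hj
    have := (h j (by omega)).1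
    exact this.to_finiteDimensional
  have iE : ∀ i : Fin (R + 1), FiniteDimensional ℚ (ET ((Finset.range (i : ℕ)).image K)) :=
    fun i => ET_fd (hT i)
  have iN : ∀ i : Fin (R + 1), Normal ℚ (ET ((Finset.range (i : ℕ)).image K)) :=
    fun i => ET_normal _
  have hbound := chain_bound hgood B hB F hF hrat S' P' hgood' hbad' m
    (K := fun i : Fin (R + 1) => K i) (M := fun i : Fin (R + 1) => M i)
    (E := fun i : Fin (R + 1) => ET ((Finset.range (i : ℕ)).image K))
    (fun i => (h i i.2).2.2.2.1) (fun i j hij => le_ET (Finset.mem_image.mpr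
      ⟨j, Finset.mem_range.mpr hij, rfl⟩)) (D := D) (fun i => (h i i.2).2.2.1)
    (fun i => a i) (fun i => b i) (fun i => (h i i.2).2.2.2.2.1) (fun i => (h i i.2).2.2.2.2.2.1)
    (fun i => (h i i.2).2.2.2.2.2.2)
  omega

end

end TatePole
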