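import Mathlib
import Pool.Agent.Lib.MP_058a58_ag.FD.Final

open Polynomial Filter Topology NumberField Set
open scoped TensorProduct Pointwise

namespace TatePole

lemma card_spec_self_le (K : IntermediateField ℚ QBar) [NumberField K] :
    Nat.card (PrimeSpectrum (K ⊗[ℚ] K)) ≤ Module.finrank ℚ K := by
  rw [card_spec_eq_PO]
  exact card_PO_le K K

lemma exists_of_ne {M K : IntermediateField ℚ QBar} (h : ¬ K ≤ M) :
    ∃ g ∈ M.fixingSubgroup, g ∉ K.fixingSubgroup := by
  by_contra hcon
  push Not at hcon
  apply h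
  rw [← InfiniteGalois.fixedField_fixingSubgroup K, ← InfiniteGalois.fixedField_fixingSubgroup M]
  exact IntermediateField.fixedField_antitone hcon

/-- a doubly transitive field has no intermediate fields -/
lemma eq_bot_or_eq {K M : IntermediateField ℚ QBar} [NumberField K] [NumberField M]
    (h2 : Nat.card (PrimeSpectrum (K ⊗[ℚ] K)) ≤ 2) (hM : M ≤ K) : M = ⊥ ∨ M = K := by
  classical
  by_contra hcon
  push Not at hcon
  obtain ⟨hb, hk⟩ := hcon
  rw [card_spec_eq_PO] at h2
  obtain ⟨g, hg, hgK⟩ := exists_of_ne (M := M) (K := K) (fun h => hk (le_antisymm hM h))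
  obtain ⟨g', -, hgM⟩ := exists_of_ne (M := ⊥) (K := M) (fun h => hb (le_bot_iff.mp h))
  have : Finite (PO K K) := finite_PO K K
  have : Fintype (PO K K) := Fintype.ofFinite _
  set φ : K →ₐ[ℚ] QBar := K.val with hφ
  let a : PO K K := Quotient.mk _ (φ, φ)
  let b : PO K K := Quotient.mk _ (φ, g • φ)
  let c : PO K K := Quotient.mk _ (φ, g' • φ)
  have hgφ : g • φ ≠ φ := by
    intro h
    apply hgK
    rw [IntermediateField.mem_fixingSubgroup_iff]
    intro x hx
    exact congrArg (fun f : K →ₐ[ℚ] QBar => f ⟨x, hx⟩) h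
  have hres : resE hM (g • φ) = resE hM φ := by
    ext x
    rw [resE_apply, resE_apply, smul_emb_apply]
    rw [IntermediateField.mem_fixingSubgroup_iff] at hg
    exact hg x x.2
  have hres' : resE hM (g' • φ) ≠ resE hM φ := by
    intro h
    apply hgM
    rw [IntermediateField.mem_fixingSubgroup_iff]
    intro x hx
    exact congrArg (fun f : M →ₐ[ℚ] QBar => f ⟨x, hx⟩) h
  have hgφ' : g' • φ ≠ φ := fun h => hres' (by rw [h])
  have key : ∀ ψ ψ' : K →ₐ[ℚ] QBar, (Quotient.mk _ (φ, ψ) : PO K K) = Quotient.mk _ (φ, ψ') →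
      ∃ h : GQ, h • φ = φ ∧ h • ψ' = ψ := by
    intro ψ ψ' h
    obtain ⟨x, hx⟩ := Quotient.exact h
    change x • (φ, ψ') = (φ, ψ) at hx
    exact ⟨x, congrArg Prod.fst hx, congrArg Prod.snd hx⟩
  have hab : a ≠ b := by
    intro h
    obtain ⟨x, hx1, hx2⟩ := key _ _ h
    apply hgφ
    have := congrArg (fun z => x⁻¹ • z) (hx2.trans hx1.symm)
    simpa using this
  have hac : a ≠ c := by
    intro h
    obtain ⟨x, hx1, hx2⟩ := key _ _ h
    apply hgφ'
    have := congrArg (fun z => x⁻¹ • z) (hx2.trans hx1.symm)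
    simpa using this
  have hbc : b ≠ c := by
    intro h
    obtain ⟨x, hx1, hx2⟩ := key _ _ h.symm
    apply hres'
    rw [← hx2, resE_smul, hres, ← resE_smul, hx1]
  have h3 : ({a, b, c} : Finset (PO K K)).card = 3 := Finset.card_eq_three.mpr
    ⟨a, b, c, hab, hac, hbc, rfl⟩
  have h4 := Finset.card_le_univ ({a, b, c} : Finset (PO K K))
  rw [h3, ← Nat.card_eq_fintype_card] at h4
  omega

lemma finite_le_gen {F Ω : Type*} [Field F] [Field Ω] [Algebra F Ω] [CharZero F]
    (E : IntermediateField F Ω) [FiniteDimensional F E] :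
    {K : IntermediateField F Ω | K ≤ E}.Finite := by
  have h : Finite (IntermediateField F E) :=
    Field.finite_intermediateField_of_exists_primitive_element F E
      (Field.exists_primitive_element F E)
  refine (Set.finite_range (IntermediateField.lift : IntermediateField F E →
    IntermediateField F Ω)).subset ?_
  intro K hK
  exact ⟨IntermediateField.restrict hK, IntermediateField.lift_restrict _⟩

lemma finite_le (E : IntermediateField ℚ QBar) [h : FiniteDimensional ℚ E] :
    {K : IntermediateField ℚ QBar | K ≤ E}.Finite := by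
  have hs : (DivisionRing.toRatAlgebra : Algebra ℚ E) = IntermediateField.algebra' E :=
    Subsingleton.elim _ _
  have h2 : @FiniteDimensional ℚ E _ _ (IntermediateField.algebra' E : Algebra ℚ E).toModule := by
    rw [← hs]
    exact h
  exact @finite_le_gen ℚ QBar _ _ _ _ E h2

lemma fd_inf (K E : IntermediateField ℚ QBar) [hK : FiniteDimensional ℚ K] :
    FiniteDimensional ℚ (K ⊓ E : IntermediateField ℚ QBar) := by
  refine Module.Finite.of_injective
    (AlgHom.toLinearMap (IntermediateField.inclusion (inf_le_left : K ⊓ E ≤ K))) ?_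
  intro x y hxy
  apply Subtype.ext
  exact congrArg (fun z : K => (z : QBar)) hxy

instance nfBot : NumberField (⊥ : IntermediateField ℚ QBar) := { }

end TatePole
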