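import Mathlib
import Pool.Agent.Lib.MP_058a58_ag.FD.Two

open Polynomial Filter Topology
open scoped TensorProduct

namespace TatePole

section
variable {ℓ : ℕ} [Fact ℓ.Prime] {W : Type*} [AddCommGroup W] [Module ℚ_[ℓ] W]

/-- `B` is like the space of classes of algebraic cycles over `QBar`: it is stable, fixed pointwise
by all Galois elements that fix a certain finite set of algebraic numbers, and its traces are
rational. -/
structure CycleSpace (ρ : Representation ℚ_[ℓ] GQ W) (B : Submodule ℚ_[ℓ] W) : Prop where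
  stable : ∀ g : GQ, ∀ w ∈ B, ρ g w ∈ B
  fixed : ∃ F : Finset QBar, ∀ g : GQ, (∀ x ∈ F, g x = x) → ∀ w ∈ B, ρ g w = w
  rational : ∀ g : GQ, ∃ r : ℚ,
    LinearMap.trace ℚ_[ℓ] B ((ρ g).restrict (stable g)) = (r : ℚ_[ℓ])

/-- The `P p` are, for all primes `p` outside the finite set `S`, the local factors of the
representation `indRep ρ K`, which is unramified and pure of weight `0` at `p`; at the primes in `S`
they do not vanish at `1 / p`. -/
def LocalFactors [FiniteDimensional ℚ_[ℓ] W] (ρ : Representation ℚ_[ℓ] GQ W)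
    (ι : ℚ_[ℓ] →+* ℂ) (K : Type) [Field K] [NumberField K] (S : Finset ℕ) (P : ℕ → ℂ[X]) : Prop :=
  (∀ p : ℕ, p.Prime → p ∉ S → IsPureLocalFactor (indRep ρ K) ι p (P p)) ∧
    ∀ p ∈ S, p.Prime → (P p).eval ((p : ℂ)⁻¹) ≠ 0

/-- The number of prime ideals of `K ⊗ K`. -/
noncomputable def pairCount (K : Type) [Field K] [CharZero K] : ℕ :=
  Nat.card (PrimeSpectrum (K ⊗[ℚ] K))

/-- If the orders `a` and `b` at `m + 1` of the `L`-functions with local factors `P` and `Q` of the
number fields `K` and `M` exist, then `a + cycleRank ρ B K = b + cycleRank ρ B M`. -/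
def SameDefect (ρ : Representation ℚ_[ℓ] GQ W) (B : Submodule ℚ_[ℓ] W)
    (m : ℕ) (K M : Type) [Field K] [NumberField K] [Field M] [NumberField M]
    (P Q : ℕ → ℂ[X]) : Prop :=
  ∀ a b : ℤ, HasOrder P m a → HasOrder Q m b → a + cycleRank ρ B K = b + cycleRank ρ B M

end

end TatePole
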