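import Mathlib
import Pool.Agent.Lib.MP_058a58_ag.FD.Stm

open Polynomial Filter Topology
open scoped TensorProduct

namespace TatePole

/-- The case `r = 2` of finite determinacy (`Pool.Agent.Results.MP_058a58_ag.FiniteDeterminacy`):
for all number fields `K`, of arbitrary degree, for which `K ⊗ K` has at most `2` prime ideals
(equivalently: the Galois group acts doubly transitively on the embeddings of `K`), with finitely
many exceptions: if the orders `a` and `b` for `K` and for `ℚ` exist, then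
`a + cycleRank ρ B K = b + cycleRank ρ B ⊥`. -/
theorem finite_determinacy_two {ℓ : ℕ} [Fact ℓ.Prime] {W : Type*} [AddCommGroup W]
    [Module ℚ_[ℓ] W] [FiniteDimensional ℚ_[ℓ] W] (ρ : Representation ℚ_[ℓ] GQ W) (ι : ℚ_[ℓ] →+* ℂ)
    (S : Finset ℕ) (P : ℕ → ℂ[X])
    (hgood : ∀ p : ℕ, p.Prime → p ∉ S → IsPureLocalFactor ρ ι p (P p))
    (B : Submodule ℚ_[ℓ] W) (hB : CycleSpace ρ B)
    (S' : IntermediateField ℚ QBar → Finset ℕ) (P' : IntermediateField ℚ QBar → ℕ → ℂ[X])
    (hP' : ∀ (K : IntermediateField ℚ QBar) [NumberField K], LocalFactors ρ ι K (S' K) (P' K))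
    (m : ℕ) :
    {K : IntermediateField ℚ QBar | ∃ _ : NumberField K, pairCount K ≤ 2 ∧
      ∃ (M : IntermediateField ℚ QBar) (_ : NumberField M), M = ⊥ ∧
        ¬ SameDefect ρ B m K M (P' K) (P' M)}.Finite := by
  obtain ⟨F, hF⟩ := hB.fixed
  obtain ⟨T, -, h2, h3⟩ := finite_determinacy hgood B hB.stable F hF hB.rational S' P'
    (fun K _ => (hP' K).1) (fun K _ => (hP' K).2) m 2
  have hT : ∀ L ∈ T, FiniteDimensional ℚ L := fun L hL => (h2 L hL).1.to_finiteDimensional
  have hfd : FiniteDimensional ℚ (ET T) := ET_fd hT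
  refine (finite_le (ET T)).subset ?_
  rintro K ⟨hnf, hK2, M, hM, rfl, hne⟩
  have hfM : FiniteDimensional ℚ (K ⊓ ET T : IntermediateField ℚ QBar) := fd_inf K (ET T)
  have hMnf : NumberField (K ⊓ ET T : IntermediateField ℚ QBar) := { }
  rcases eq_bot_or_eq (K := K) (M := K ⊓ ET T) hK2 inf_le_left with h | h
  · exact absurd (fun a b ha hb => h3 K ⊥ hK2 h.symm a b ha hb) hne
  · exact inf_eq_left.mp h

end TatePole
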